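import Pool.Agent.Y311.CX.Fin

/-!
# Unrestricted boxes: arbitrary (non-commuting) maps, linear forms of complexity at most one

The maps `T_1, …, T_n` are arbitrary invertible measure preserving maps of an arbitrary
probability space; no commutation or nilpotency is assumed.
-/

set_option autoImplicit false

open Filter Topology MeasureTheory
open scoped ENNReal Matrix

namespace Pool.Agent.Results.MP_f720ae_an.ComplexityOne

/-- `T` is weakly mixing: `T × T` is ergodic. -/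
def WeaklyMixing {X : Type*} [MeasurableSpace X] (μ : Measure X) (T : Equiv.Perm X) : Prop :=
  Ergodic (Prod.map T T) (μ.prod μ)

/-- Let `T_1, …, T_n` be invertible measure preserving maps of a probability space (they need not
commute), let `L_1, …, L_n` be integer linear forms in `m = (m_1, …, m_k)`, `c_j ∈ ℤ` and
`f_j ∈ L^∞`. Suppose that for some set `W` of indices

* if `j ∈ W`, then `T_j` is weakly mixing, `L_j ≠ 0` and `L_j` is not a rational multiple of any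
  `L_i` with `i ≠ j` (some `v ∈ ℤ^k` has `L_i(v) = 0` and `L_j(v) ≠ 0`);
* if `j ∉ W`, then the forms `L_i` with `i ∉ W`, `i ≠ j` can be divided into two classes, neither
  of which has `L_j` in its linear span (some `v₁, v₂ ∈ ℤ^k` have `L_j(v₁) ≠ 0`, `L_j(v₂) ≠ 0`,
  and every such `L_i` vanishes at `v₁` or at `v₂`).

Then for almost every `x` the averages of `∏_j f_j (T_j^(L_j(m) + c_j) x)` over the boxes
`[M_1] × ⋯ × [M_k]` converge as `min M_l → ∞` (unrestricted boxes). -/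
theorem result {k n : ℕ} {X : Type*} [MeasurableSpace X] (μ : Measure X) [IsProbabilityMeasure μ]
    (T : Fin n → Equiv.Perm X) (hTm : ∀ j, Measurable (T j).symm)
    (hT : ∀ j, MeasurePreserving (T j) μ μ) (L : Fin n → Fin k → ℤ) (c : Fin n → ℤ)
    (W : Set (Fin n))
    (hW : ∀ j ∈ W, WeaklyMixing μ (T j) ∧ L j ≠ 0 ∧
      ∀ i, i ≠ j → ∃ v : Fin k → ℤ, L i ⬝ᵥ v = 0 ∧ L j ⬝ᵥ v ≠ 0)
    (hN : ∀ j ∉ W, ∃ v₁ v₂ : Fin k → ℤ, L j ⬝ᵥ v₁ ≠ 0 ∧ L j ⬝ᵥ v₂ ≠ 0 ∧
      ∀ i, i ≠ j → i ∉ W → L i ⬝ᵥ v₁ = 0 ∨ L i ⬝ᵥ v₂ = 0)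
    (f : Fin n → X → ℂ) (hf : ∀ j, MemLp (f j) ∞ μ) :
    ∀ᵐ x ∂μ, ∃ ℓ : ℂ, Tendsto (fun M : Fin k → ℕ => (∏ l, (M l : ℂ))⁻¹ *
      ∑ m ∈ Fintype.piFinset (fun l => Finset.Icc 1 (M l)),
        ∏ j, f j ((T j ^ (L j ⬝ᵥ (fun l => ((m l : ℕ) : ℤ)) + c j)) x)) atTop (𝓝 ℓ) :=
  Pool.Agent.Y311.CX.complexity_one hTm hT c (fun j => j ∈ W) hW hN hf

end Pool.Agent.Results.MP_f720ae_an.ComplexityOne
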