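import Pool.Agent.Y311.UB.Cubes

/-!
# Unrestricted boxes: cubic and simplex averages of arbitrary commuting transformations

`T_0, …, T_d` are arbitrary commuting invertible measure preserving maps of an arbitrary
probability space; no ergodicity or mixing assumption is made.
-/

set_option autoImplicit false

open Filter Topology MeasureTheory
open scoped ENNReal Matrix

namespace Pool.Agent.Results.MP_f720ae_an.CubesSimplices

/-- The exponents `ℓ_0(m), …, ℓ_d(m)`: the affine map `m ↦ C m + b`. -/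
def ell {d k : ℕ} (C : Matrix (Fin (d + 1)) (Fin k) ℤ) (b : Fin (d + 1) → ℤ) (m : Fin k → ℕ) :
    Fin (d + 1) → ℤ :=
  C *ᵥ (fun l => ((m l : ℕ) : ℤ)) + b

/-- Let `T_0, …, T_d` be commuting invertible measure preserving maps of a probability space and
let `ℓ_0, …, ℓ_d` be affine integer forms in `m_1, …, m_k` whose linear parts map `ℤ^k` onto
`ℤ^(d+1)` (for example `k = d + 1` and `ℓ_i(m) = m_i`). For all `f_0, …, f_d ∈ L^∞` and
`g_e ∈ L^∞` (`e ⊆ {1, …, d}`) the averages over `m ∈ [M_1] × ⋯ × [M_k]` of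

`∏_j f_j (T_j^(ℓ_0(m)) T_1^(ℓ_1(m)) ⋯ T_d^(ℓ_d(m)) x) * ∏_e g_e (∏_{i ∈ e} T_i^(ℓ_i(m)) x)`

converge for almost every `x` as `min M_l → ∞` (unrestricted boxes). -/
theorem result (d k : ℕ) {X : Type*} [MeasurableSpace X] (μ : Measure X) [IsProbabilityMeasure μ]
    (T : Fin (d + 1) → Equiv.Perm X) (hTm : ∀ i, Measurable (T i).symm)
    (hT : ∀ i, MeasurePreserving (T i) μ μ) (hc : ∀ i j, Commute (T i) (T j))
    (C : Matrix (Fin (d + 1)) (Fin k) ℤ) (hC : Function.Surjective C.mulVec)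
    (b : Fin (d + 1) → ℤ)
    (f : Fin (d + 1) → X → ℂ) (hf : ∀ j, MemLp (f j) ∞ μ)
    (g : Finset (Fin d) → X → ℂ) (hg : ∀ e, MemLp (g e) ∞ μ) :
    ∀ᵐ x ∂μ, ∃ L : ℂ, Tendsto (fun M : Fin k → ℕ => (∏ l, (M l : ℂ))⁻¹ *
      ∑ m ∈ Fintype.piFinset (fun l => Finset.Icc 1 (M l)),
        (∏ j, f j ((T j ^ ell C b m 0 *
          (List.ofFn fun i : Fin d => T i.succ ^ ell C b m i.succ).prod) x)) *
        ∏ e, g e ((List.ofFn fun i : Fin d =>
          if i ∈ e then T i.succ ^ ell C b m i.succ else 1).prod x))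
      atTop (𝓝 L) :=
  Pool.Agent.Y311.UB.cubes hTm hT hc hC b hf hg

end Pool.Agent.Results.MP_f720ae_an.CubesSimplices
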