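import Pool.Agent.Y311.DN.Comm

/-!
# Pointwise convergence in density: commuting maps, all forms of degree one

`T_1, …, T_d` are arbitrary commuting invertible measure preserving maps of an arbitrary probability
space, `P_j(m) = V_j m + b_j ∈ ℤ^d` arbitrary affine integer forms in `m = (m_1, …, m_k)`. The
averages over unrestricted boxes converge at almost every point `x` off a subset of small density
of the orbit of `x`, uniformly in all sufficiently large boxes and all sufficiently long windows;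
the windows may be much shorter than the boxes.
-/

set_option autoImplicit false

open Filter Topology MeasureTheory
open scoped ENNReal Matrix

namespace Pool.Agent.Results.MP_f720ae_an.DensityLinearForms

/-- `T^z = T_1^(z_1) ⋯ T_d^(z_d)`. -/
def pw {d : ℕ} {X : Type*} (T : Fin d → Equiv.Perm X) (z : Fin d → ℤ) : Equiv.Perm X :=
  (List.ofFn fun i => T i ^ z i).prod

/-- The averages over `m ∈ [M_1] × ⋯ × [M_k]` of `∏_j f_j (T^(V_j m + b_j) x)`. -/
noncomputable def avg {d k n : ℕ} {X : Type*} (T : Fin d → Equiv.Perm X)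
    (V : Fin n → Matrix (Fin d) (Fin k) ℤ) (b : Fin n → Fin d → ℤ) (f : Fin n → X → ℂ)
    (M : Fin k → ℕ) (x : X) : ℂ :=
  (∏ l, (M l : ℂ))⁻¹ * ∑ m ∈ Fintype.piFinset (fun l => Finset.Icc 1 (M l)),
    ∏ j, f j (pw T (V j *ᵥ (fun l => ((m l : ℕ) : ℤ)) + b j) x)

/-- Let `T_1, …, T_d` be commuting invertible measure preserving maps of a probability space, let
`f_0, …, f_n ∈ L^∞`, and let `V_j m + b_j` (`0 ≤ j ≤ n`) be affine integer forms in `k` variables.
Let `U` be an integer matrix with `V_j = U C_j` for some integer matrix `C_j`, for `1 ≤ j ≤ n` (no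
condition on `V_0`; `U = 1` is always allowed). There is a bounded measurable `F`, the limit of the
averages `A_M` in `L^2`, such that for almost every `x` and all `ε > 0` there is `K` such that,
whenever all the `M_i` and all the `L_s` are at least `K`, one has `|A_M - F| < ε` at the point
`T^(U c) x` for all but at most `ε L_1 ⋯ L_q` of the `c ∈ [L_1] × ⋯ × [L_q]`. -/
theorem result (d k n q : ℕ) {X : Type*} [MeasurableSpace X] (μ : Measure X)
    [IsProbabilityMeasure μ]
    (T : Fin d → Equiv.Perm X) (hTm : ∀ i, Measurable (T i).symm)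
    (hT : ∀ i, MeasurePreserving (T i) μ μ) (hc : ∀ i j, Commute (T i) (T j))
    (V : Fin (n + 1) → Matrix (Fin d) (Fin k) ℤ) (b : Fin (n + 1) → Fin d → ℤ)
    (U : Matrix (Fin d) (Fin q) ℤ)
    (hU : ∀ j : Fin n, ∃ C : Matrix (Fin q) (Fin k) ℤ, V j.succ = U * C)
    (f : Fin (n + 1) → X → ℂ) (hf : ∀ j, MemLp (f j) ∞ μ) :
    ∃ (F : X → ℂ) (C : ℝ), Measurable F ∧ (∀ x, ‖F x‖ ≤ C) ∧
      Tendsto (fun M : Fin k → ℕ => ∫ x, ‖avg T V b f M x - F x‖ ^ 2 ∂μ) atTop (𝓝 0) ∧
      ∀ᵐ x ∂μ, ∀ ε : ℝ, 0 < ε → ∃ K : ℕ, ∀ (M : Fin k → ℕ) (L : Fin q → ℕ),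
        (∀ i, K ≤ M i) → (∀ s, K ≤ L s) →
        (((Fintype.piFinset (fun s => Finset.Icc 1 (L s))).filter fun c =>
          ε ≤ ‖avg T V b f M (pw T (U *ᵥ fun s => ((c s : ℕ) : ℤ)) x) -
            F (pw T (U *ᵥ fun s => ((c s : ℕ) : ℤ)) x)‖).card : ℝ) ≤ ε * ∏ s, (L s : ℝ) :=
  Pool.Agent.Y311.DN.comm_dens hTm hT hc V b U hU hf fun _ _ => rfl

end Pool.Agent.Results.MP_f720ae_an.DensityLinearForms
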