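import Pool.Agent.Y957.MC.Box
import Pool.Agent.Y957.MC.Fin4

set_option autoImplicit false

/-!
# Unrestricted multiple averages along linear forms at almost all times of flows

Let `τ_1, ..., τ_n` be measurable measure preserving flows on a probability space, with no relation between them
(they need not commute, nor generate a nilpotent group), and let `L_1, ..., L_n` be nonzero linear forms in `k`
variables with real coefficients. For Lebesgue almost every `(a_1, ..., a_n)` the averages of
`∏ f_j (τ_j^(a_j L_j(m)) x)` over boxes `[1, M_1] × ... × [1, M_k]` converge for almost every `x` as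
`min M_i → ∞`, with no restriction on the shape of the boxes, for all `f_j` in `L^∞`. The limit is the product of
the conditional expectations of the `f_j` on the `τ_j`-invariant sets. In the second part the flows are one parameter
subgroups of an action of `ℝ ^ d`, in almost all directions, and the linear forms are all integer ones.

Proof (`Pool.Agent.Y957.MC`, theorem `flwc_all`): for a linear form `L`, a variable `i` which occurs in `L`, and
almost every `x`, for EVERY bounded array of weights `B`, for almost every `a`, the averages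
`(1/|M|) ∑_{m ∈ [M]} B(m) (f(τ^(a L(m)) x) - E(f|τ)(x))` tend to `0` over the boxes whose longest side is `M_i`. For
coboundaries of the flow this follows from Parseval in the multiplicative Fourier transform over windows in `log a`,
applied for each value `b` of the part of `L(m)` without `m_i` to `u ↦ f(τ^u x)` and the Dirichlet polynomial
`∑ B(m) (c_i m_i + b)^(it)`, with bounds which save a power of `M_i` uniformly in `b`. The general case follows with
a second moment estimate for averages of nonnegative functions. In a product the factors which contain the variable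
of the longest side are replaced by their limits, and the others do not depend on it: induction on `k` and Fubini.
-/

namespace Pool.Agent.Results.MP_f720ae_an.GenericLinearForms

open MeasureTheory Filter Finset

universe u

/-- a measurable measure preserving flow -/
structure IsFlow {X : Type u} [MeasurableSpace X] (μ : Measure X) (τ : ℝ → X → X) : Prop where
  meas : Measurable (fun p : ℝ × X => τ p.1 p.2)
  zero : ∀ x, τ 0 x = x
  add : ∀ s t x, τ (s + t) x = τ s (τ t x)
  mp : ∀ t, MeasurePreserving (τ t) μ μ

/-- a measurable measure preserving action of `ℝ ^ d` -/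
structure IsAction {X : Type u} [MeasurableSpace X] (μ : Measure X) {d : ℕ} (σ : (Fin d → ℝ) → X → X) : Prop where
  meas : Measurable (fun p : (Fin d → ℝ) × X => σ p.1 p.2)
  zero : ∀ x, σ 0 x = x
  add : ∀ s t x, σ (s + t) x = σ s (σ t x)
  mp : ∀ t, MeasurePreserving (σ t) μ μ

theorem result :
    (∀ (X : Type u) [MeasurableSpace X] (μ : Measure X) [IsProbabilityMeasure μ] (k n : ℕ) (τ : Fin n → ℝ → X → X)
      (c : Fin n → Fin k → ℝ) (f : Fin n → X → ℂ),
      (∀ j, IsFlow μ (τ j)) → (∀ j, c j ≠ 0) → (∀ j, AEStronglyMeasurable (f j) μ) →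
      (∀ j, ∃ C : ℝ, ∀ᵐ x ∂μ, ‖f j x‖ ≤ C) →
      ∀ᵐ a : Fin n → ℝ, ∀ᵐ x ∂μ,
        Tendsto (fun M : Fin k → ℕ => (1 / ((∏ i, M i : ℕ) : ℂ)) * ∑ m ∈ Fintype.piFinset (fun i => Icc 1 (M i)),
          ∏ j, f j (τ j (a j * ∑ i, c j i * (m i : ℝ)) x)) atTop
          (nhds (∏ j, (μ[f j | ⨅ t : ℝ, MeasurableSpace.invariants (τ j t)]) x))) ∧
    (∀ (X : Type u) [MeasurableSpace X] (μ : Measure X) [IsProbabilityMeasure μ] (k n d : ℕ)
      (σ : (Fin d → ℝ) → X → X) (f : Fin n → X → ℂ),
      IsAction μ σ → (∀ j, AEStronglyMeasurable (f j) μ) → (∀ j, ∃ C : ℝ, ∀ᵐ x ∂μ, ‖f j x‖ ≤ C) →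
      ∀ᵐ v : Fin n → Fin d → ℝ, ∀ c : Fin n → Fin k → ℤ, (∀ j, c j ≠ 0) →
        ∀ᵐ x ∂μ, ∃ L : ℂ, Tendsto (fun M : Fin k → ℕ => (1 / ((∏ i, M i : ℕ) : ℂ)) *
          ∑ m ∈ Fintype.piFinset (fun i => Icc 1 (M i)),
            ∏ j, f j (σ (((∑ i, c j i * (m i : ℤ) : ℤ) : ℝ) • v j) x)) atTop (nhds L)) := by
  refine ⟨?_, ?_⟩
  · intro X _ μ _ k n τ c f hτ hc hf hfb
    exact Pool.Agent.Y957.MC.boxes_Linf Pool.Agent.Y957.MC.flwc_all
      (fun j => ⟨(hτ j).meas, (hτ j).zero, (hτ j).add, (hτ j).mp⟩) hc hf hfb
  · intro X _ μ _ k n d σ f hσ hf hfb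
    exact Pool.Agent.Y957.MC.boxes_act Pool.Agent.Y957.MC.flwc_all ⟨hσ.meas, hσ.zero, hσ.add, hσ.mp⟩ hf hfb

end Pool.Agent.Results.MP_f720ae_an.GenericLinearForms
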